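import Mathlib

set_option autoImplicit false

open Finset

namespace Pool.Agent.Results.MP_09543b_pr.InfFixed

/-- The automaton distributional map. -/
noncomputable def Psi {S : Type} [Fintype S] [DecidableEq S] (A : (S → ℕ) → S) (χ : PMF ℕ)
    (x : S → ℝ) (σ : S) : ℝ :=
  ∑' m : ℕ, (χ m).toReal *
    ∑ n ∈ (piAntidiag univ m).filter (fun n => A n = σ),
      (Nat.multinomial univ n : ℝ) * ∏ τ, x τ ^ n τ

theorem result : ∃ (A : (Fin 3 → ℕ) → Fin 3) (χ : PMF ℕ), (∃ m, 2 ≤ m ∧ χ m ≠ 0) ∧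
    Set.Infinite {x ∈ stdSimplex ℝ (Fin 3) | Psi A χ x = x} := by
  let A : (Fin 3 → ℕ) → Fin 3 := fun n => if n = ![1, 0, 1] then 0 else if n = ![0, 1, 1] then 1 else 2
  refine ⟨A, PMF.pure 2, ⟨2, le_rfl, by simp⟩, ?_⟩
  have hP : ∀ x σ, Psi A (PMF.pure 2) x σ = ∑ n ∈ (piAntidiag univ 2).filter (fun n => A n = σ),
      (Nat.multinomial univ n : ℝ) * ∏ τ, x τ ^ n τ := fun x σ => by
    rw [Psi, tsum_eq_single 2 fun m hm => by simp [hm]]
    simp
  have h0 : (piAntidiag univ 2).filter (fun n => A n = 0) = {![1, 0, 1]} := by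
    ext n
    simp only [mem_filter, mem_singleton, A]
    refine ⟨fun h => by_contra fun e => ?_, ?_⟩
    · have := h.2
      rw [if_neg e] at this
      split_ifs at this <;> simp at this
    · rintro rfl
      simp [Fin.sum_univ_three]
  have h1 : (piAntidiag univ 2).filter (fun n => A n = 1) = {![0, 1, 1]} := by
    ext n
    simp only [mem_filter, mem_singleton, A]
    refine ⟨fun h => by_contra fun e => ?_, ?_⟩
    · have := h.2
      rw [if_neg e] at this
      split_ifs at this <;> simp at this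
    · rintro rfl
      simp [Fin.sum_univ_three]
  refine Set.infinite_of_injOn_mapsTo (s := Set.Icc (0 : ℝ) (1 / 2))
    (f := fun t => ![t, 1 / 2 - t, 1 / 2]) (fun a _ b _ h => congrFun h 0) ?_
    (Set.Icc_infinite (by norm_num))
  intro t ht
  have hs : ∑ i, (![t, 1 / 2 - t, 1 / 2] : Fin 3 → ℝ) i = 1 := by
    simp [Fin.sum_univ_three]; norm_num
  refine ⟨⟨fun i => ?_, hs⟩, ?_⟩
  · fin_cases i
    · exact ht.1
    · simpa using ht.2
    · simp
  · have e0 : Psi A (PMF.pure 2) ![t, 1 / 2 - t, 1 / 2] 0 = t := by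
      rw [hP, h0]
      simp [Nat.multinomial, Fin.sum_univ_three, Fin.prod_univ_three]
      ring
    have e1 : Psi A (PMF.pure 2) ![t, 1 / 2 - t, 1 / 2] 1 = 1 / 2 - t := by
      rw [hP, h1]
      simp [Nat.multinomial, Fin.sum_univ_three, Fin.prod_univ_three]
      ring
    have e : ∑ σ, Psi A (PMF.pure 2) ![t, 1 / 2 - t, 1 / 2] σ = 1 := by
      simp only [hP]
      rw [sum_fiberwise, ← sum_pow_eq_sum_piAntidiag, hs, one_pow]
    rw [Fin.sum_univ_three, e0, e1] at e
    funext i
    fin_cases i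
    · exact e0
    · exact e1
    · simp only [Fin.reduceFinMk, Matrix.cons_val]
      linarith

end Pool.Agent.Results.MP_09543b_pr.InfFixed
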